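import Pool.Agent.MP_da2386_co.Defs

open Module QuadraticMap

namespace Pool.Agent.MP_da2386_co

variable {F V : Type*} [Field F] [AddCommGroup V] [Module F V] {Q : QuadraticForm F V}

lemma q_add (Q : QuadraticForm F V) (x y : V) : Q (x + y) = Q x + Q y + polar Q x y := by
  simp [polar]

lemma TotSing.polar {W : Submodule F V} (h : TotSing Q W) {x y : V} (hx : x ∈ W) (hy : y ∈ W) :
    polar Q x y = 0 := by
  have := q_add Q x y
  rw [h _ (W.add_mem hx hy), h _ hx, h _ hy] at this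
  simpa using this.symm

lemma totSing_span {x : V} (hx : Q x = 0) : TotSing Q (F ∙ x) := by
  intro v hv
  obtain ⟨a, rfl⟩ := Submodule.mem_span_singleton.1 hv
  rw [QuadraticMap.map_smul, hx, smul_zero]

lemma TotSing.sup_span {W : Submodule F V} (h : TotSing Q W) {x : V} (hx : Q x = 0)
    (hp : ∀ w ∈ W, QuadraticMap.polar Q w x = 0) : TotSing Q (W ⊔ F ∙ x) := by
  intro v hv
  obtain ⟨w, hw, z, hz, rfl⟩ := Submodule.mem_sup.1 hv
  obtain ⟨a, rfl⟩ := Submodule.mem_span_singleton.1 hz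
  rw [q_add, h w hw, QuadraticMap.map_smul, hx, polar_smul_right, hp w hw]
  simp

lemma exists_gen [FiniteDimensional F V] {W : Submodule F V} (h : TotSing Q W) :
    ∃ G, IsGenerator Q G ∧ W ≤ G := by
  obtain ⟨G, h1, h2⟩ := exists_maximal_ge_of_wellFoundedGT (TotSing Q) W h
  exact ⟨G, h2, h1⟩

lemma IsGenerator.mem {G : Submodule F V} (hG : IsGenerator Q G) {x : V} (hx : Q x = 0)
    (hp : ∀ w ∈ G, polar Q w x = 0) : x ∈ G := by
  have h1 : TotSing Q (G ⊔ F ∙ x) := TotSing.sup_span hG.1 hx hp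
  have h2 := hG.2 h1 le_sup_left
  exact h2 (Submodule.mem_sup_right (Submodule.mem_span_singleton_self x))

lemma eq_span_of_finrank {P : Submodule F V} (hP : finrank F P = 1) {x : V} (hx : x ∈ P)
    (h0 : x ≠ 0) : P = F ∙ x := by
  have : FiniteDimensional F P := Module.finite_of_finrank_eq_succ hP
  symm
  apply Submodule.eq_of_le_of_finrank_eq ((Submodule.span_singleton_le_iff_mem _ _).2 hx)
  rw [finrank_span_singleton h0, hP]

lemma isPoint_span {x : V} (hx : Q x = 0) (h0 : x ≠ 0) : IsPoint Q (F ∙ x) :=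
  ⟨totSing_span hx, finrank_span_singleton h0⟩

lemma exists_ne_zero_of_finrank {P : Submodule F V} (hP : finrank F P = 1) :
    ∃ x ∈ P, x ≠ 0 := by
  apply Submodule.exists_mem_ne_zero_of_ne_bot
  rintro rfl
  simp at hP

/-- two different points of an ovoid are not perpendicular -/
lemma IsOvoid.eq_of_polar [FiniteDimensional F V] {O : Set (Submodule F V)} (hO : IsOvoid Q O)
    {P P' : Submodule F V} (hP : P ∈ O) (hP' : P' ∈ O) {x y : V} (hx : x ∈ P) (hy : y ∈ P')
    (hx0 : x ≠ 0) (hy0 : y ≠ 0) (h : polar Q x y = 0) : P = P' := by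
  have e1 := eq_span_of_finrank (hO.1 P hP).2 hx hx0
  have e2 := eq_span_of_finrank (hO.1 P' hP').2 hy hy0
  have h1 : TotSing Q (P ⊔ F ∙ y) := by
    refine TotSing.sup_span (hO.1 P hP).1 ((hO.1 P' hP').1 y hy) ?_
    intro w hw
    rw [e1] at hw
    obtain ⟨a, rfl⟩ := Submodule.mem_span_singleton.1 hw
    rw [polar_smul_left, h, smul_zero]
  obtain ⟨G, hG, hle⟩ := exists_gen h1
  refine (hO.2 G hG).unique ⟨hP, le_sup_left.trans hle⟩ ⟨hP', ?_⟩
  rw [e2]; exact le_sup_right.trans hle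

lemma exists_polar_one (hQ : Q.radical = ⊥) {x : V} (hx : Q x = 0) (h0 : x ≠ 0) :
    ∃ v, polar Q v x = 1 := by
  by_contra hc
  push Not at hc
  apply h0
  have : x ∈ Q.radical := by
    refine ⟨hx, ?_⟩
    ext v
    by_contra hv
    simp only [polarBilin_apply_apply, LinearMap.zero_apply] at hv
    apply hc ((polar Q x v)⁻¹ • v)
    rw [polar_smul_left, polar_comm Q v x, smul_eq_mul, inv_mul_cancel₀ hv]
  rwa [hQ, Submodule.mem_bot] at this

/-- every class modulo a generator off the hyperplane of the ovoid point contains an ovoid point -/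
lemma IsOvoid.exists_class [FiniteDimensional F V] {O : Set (Submodule F V)} (hO : IsOvoid Q O)
    {G : Submodule F V} (hG : IsGenerator Q G) {P₀ : Submodule F V} (hP₀ : P₀ ∈ O) (hle : P₀ ≤ G)
    {y₀ : V} (hy₀ : y₀ ∈ P₀) (hy0 : y₀ ≠ 0) {v : V} (hv : polar Q v y₀ = 1) :
    ∃ P ∈ O, P ≠ P₀ ∧ ∃ y ∈ P, y - v ∈ G := by
  have hQ0 : Q y₀ = 0 := (hO.1 _ hP₀).1 _ hy₀
  set w := v - Q v • y₀ with hw
  have hQw : Q w = 0 := by
    rw [hw, sub_eq_add_neg, ← neg_smul, q_add, QuadraticMap.map_smul, hQ0, polar_smul_right, hv]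
    simp
  have hwy : polar Q w y₀ = 1 := by
    rw [hw, polar_sub_left, polar_smul_left, hv, polar_self, hQ0]; simp
  let H : Submodule F V := G ⊓ LinearMap.ker (Q.polarBilin w)
  have hH : TotSing Q H := fun u hu => hG.1 u hu.1
  have hHw : ∀ u ∈ H, polar Q u w = 0 := by
    intro u hu
    rw [polar_comm]; exact hu.2
  obtain ⟨M, hM, hleM⟩ := exists_gen (hH.sup_span hQw hHw)
  obtain ⟨P, ⟨hP, hPM⟩, -⟩ := hO.2 M hM
  obtain ⟨y, hy, hyne⟩ := exists_ne_zero_of_finrank (hO.1 P hP).2
  have hwM : w ∈ M := hleM (Submodule.mem_sup_right (Submodule.mem_span_singleton_self w))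
  have hyw : polar Q y w = 0 := TotSing.polar hM.1 (hPM hy) hwM
  have hQy : Q y = 0 := (hO.1 P hP).1 y hy
  set l := polar Q y y₀ with hl
  have hmem : y - l • w ∈ G := by
    apply hG.mem
    · rw [sub_eq_add_neg, ← neg_smul, q_add, QuadraticMap.map_smul, hQy, hQw, polar_smul_right,
        hyw]
      simp
    · intro u hu
      have h1 : u - polar Q w u • y₀ ∈ H := by
        refine ⟨G.sub_mem hu (G.smul_mem _ (hle hy₀)), ?_⟩
        simp only [SetLike.mem_coe, LinearMap.mem_ker, polarBilin_apply_apply]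
        rw [polar_sub_right, polar_smul_right, hwy]; simp
      have h2 : polar Q (u - polar Q w u • y₀) y = 0 :=
        TotSing.polar hM.1 (hleM (Submodule.mem_sup_left h1)) (hPM hy)
      rw [polar_sub_left, polar_smul_left, polar_comm Q y₀ y, ← hl] at h2
      rw [polar_sub_right, polar_smul_right, polar_comm Q u w]
      simp only [smul_eq_mul] at h2 ⊢
      linear_combination h2
  have hPne : P ≠ P₀ := by
    rintro rfl
    have e := eq_span_of_finrank (hO.1 P hP).2 hy hyne
    rw [e] at hy₀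
    obtain ⟨a, rfl⟩ := Submodule.mem_span_singleton.1 hy₀
    rw [polar_smul_right, polar_comm, hyw] at hwy
    simp at hwy
  have hl0 : l ≠ 0 := fun h => hPne (hO.eq_of_polar hP hP₀ hy hy₀ hyne hy0 h)
  refine ⟨P, hP, hPne, l⁻¹ • y, P.smul_mem _ hy, ?_⟩
  have : l⁻¹ • y - v = l⁻¹ • (y - l • w) - Q v • y₀ := by
    rw [smul_sub, smul_smul, inv_mul_cancel₀ hl0, one_smul, hw]; abel
  rw [this]
  exact G.sub_mem (G.smul_mem _ hmem) (G.smul_mem _ (hle hy₀))

/-- the size of an ovoid, lower bound -/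
lemma IsOvoid.card_ge [Finite F] [FiniteDimensional F V] (hQ : Q.radical = ⊥)
    {O : Set (Submodule F V)} (hO : IsOvoid Q O) {G : Submodule F V} (hG : IsGenerator Q G) :
    Nat.card F ^ (finrank F V - finrank F G - 1) + 1 ≤ O.ncard := by
  have : Finite V := Module.finite_of_finite F
  obtain ⟨P₀, ⟨hP₀, hle⟩, -⟩ := hO.2 G hG
  obtain ⟨y₀, hy₀, hy0⟩ := exists_ne_zero_of_finrank (hO.1 P₀ hP₀).2
  obtain ⟨v₀, hv₀⟩ := exists_polar_one hQ ((hO.1 _ hP₀).1 _ hy₀) hy0
  obtain ⟨W, hW⟩ := G.exists_isCompl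
  let f : W →ₗ[F] F := (Q.polarBilin y₀).comp W.subtype
  have hdim : finrank F V - finrank F G - 1 ≤ finrank F (LinearMap.ker f) := by
    have h1 := f.finrank_range_add_finrank_ker
    have h2 := Submodule.finrank_add_eq_of_isCompl hW
    have h3 : finrank F (LinearMap.range f) ≤ 1 := by
      simpa using (LinearMap.range f).finrank_le
    omega
  have hex : ∀ k : LinearMap.ker f, ∃ P ∈ O, P ≠ P₀ ∧ ∃ y ∈ P, y - (v₀ + (k.1 : V)) ∈ G := by
    intro k
    apply hO.exists_class hG hP₀ hle hy₀ hy0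
    have : polar Q y₀ (k.1 : V) = 0 := k.2
    rw [polar_add_left, hv₀, polar_comm, this, add_zero]
  choose P hP hne y hy hyG using hex
  have hy1 : ∀ k, polar Q (y k) y₀ = 1 := by
    intro k
    have h1 : polar Q (y k - (v₀ + (k.1 : V))) y₀ = 0 := TotSing.polar hG.1 (hyG k) (hle hy₀)
    have : polar Q y₀ (k.1 : V) = 0 := k.2
    rw [polar_sub_left, polar_add_left, hv₀, polar_comm Q (k.1 : V), this] at h1
    linear_combination h1
  have hinj : Function.Injective P := by
    intro k k' hk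
    have hne0 : y k ≠ 0 := by
      intro h
      have := hy1 k
      rw [h] at this
      simp at this
    have e := eq_span_of_finrank (hO.1 _ (hP k)).2 (hy k) hne0
    have h2 := hy k'
    rw [← hk, e] at h2
    obtain ⟨a, ha⟩ := Submodule.mem_span_singleton.1 h2
    have h3 := hy1 k'
    rw [← ha, polar_smul_left, hy1 k, smul_eq_mul, mul_one] at h3
    rw [h3, one_smul] at ha
    have h4 : ((k'.1 : V) - (k.1 : V)) ∈ G := by
      have := G.sub_mem (hyG k) (hyG k')
      rw [← ha] at this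
      convert this using 1
      abel
    have h5 : ((k'.1 : V) - (k.1 : V)) ∈ W := W.sub_mem k'.1.2 k.1.2
    have h6 := (Submodule.disjoint_def.1 hW.disjoint) _ h4 h5
    exact Subtype.ext (Subtype.ext (sub_eq_zero.1 h6).symm)
  have h7 : Nat.card (LinearMap.ker f) ≤ (O \ {P₀}).ncard := by
    rw [← Set.ncard_univ]
    refine Set.ncard_le_ncard_of_injOn P (fun k _ => ⟨hP k, hne k⟩) hinj.injOn (Set.toFinite _)
  have h8 := Set.ncard_sdiff_singleton_add_one hP₀ (Set.toFinite O)
  rw [Module.natCard_eq_pow_finrank (K := F)] at h7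
  have h9 : Nat.card F ^ (finrank F V - finrank F G - 1) ≤
      Nat.card F ^ finrank F (LinearMap.ker f) := Nat.pow_le_pow_right Nat.card_pos hdim
  omega

end Pool.Agent.MP_da2386_co
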