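import Pool.Agent.MP_da2386_co.Even

open Module QuadraticMap

namespace Pool.Agent.MP_da2386_co

variable {F V : Type*} [Field F] [AddCommGroup V] [Module F V] {Q : QuadraticForm F V}

/-- a proper colouring of the points by the points of a projective space of the dimension of a
generator gives a partition into ovoids -/
lemma partition_of_colouring [Finite F] [FiniteDimensional F V] {r : ℕ} (hr : HasWittIndex Q r)
    (c : V → (Fin r → F)) (h1 : ∀ v, Q v = 0 → v ≠ 0 → c v ≠ 0)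
    (h2 : ∀ v (l : F), Q v = 0 → l ≠ 0 → ∃ m : F, c (l • v) = m • c v)
    (h3 : ∀ v w (m : F), Q v = 0 → Q w = 0 → v ≠ 0 → w ≠ 0 → polar Q v w = 0 → c w = m • c v →
      ∃ l : F, w = l • v) : HasOvoidPartition Q := by
  classical
  let O : Submodule F (Fin r → F) → Set (Submodule F V) := fun L =>
    {P | IsPoint Q P ∧ ∃ v ∈ P, v ≠ 0 ∧ c v ∈ L}
  have hall : ∀ L P, P ∈ O L → ∀ v ∈ P, v ≠ 0 → c v ∈ L := by
    rintro L P ⟨hP, w, hw, hw0, hc⟩ v hv hv0
    rw [eq_span_of_finrank hP.2 hw hw0] at hv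
    obtain ⟨l, rfl⟩ := Submodule.mem_span_singleton.1 hv
    obtain ⟨m, hm⟩ := h2 w l (hP.1 w hw) (fun h => hv0 (by rw [h, zero_smul]))
    rw [hm]; exact L.smul_mem _ hc
  refine ⟨O '' {L | finrank F L = 1}, ?_, ?_, ?_⟩
  · rintro _ ⟨L, hL, rfl⟩
    refine ⟨fun P hP => hP.1, fun G hG => ?_⟩
    have : Finite V := Module.finite_of_finite F
    let f : Projectivization F G → Projectivization F (Fin r → F) := fun P =>
      Projectivization.mk F (c P.rep) (h1 _ (hG.1 _ P.rep.2) (by simpa using P.rep_nonzero))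
    have hinj : Function.Injective f := by
      intro P P' h
      obtain ⟨m, hm⟩ := (Projectivization.mk_eq_mk_iff' _ _ _ _ _).1 h
      obtain ⟨l, hl⟩ := h3 _ _ m (hG.1 _ P'.rep.2) (hG.1 _ P.rep.2)
        (by simpa using P'.rep_nonzero) (by simpa using P.rep_nonzero)
        (TotSing.polar hG.1 P'.rep.2 P.rep.2) hm.symm
      rw [← P.mk_rep, ← P'.mk_rep, Projectivization.mk_eq_mk_iff']
      exact ⟨l, Subtype.ext hl.symm⟩
    have hcard : Nat.card (Projectivization F G) = Nat.card (Projectivization F (Fin r → F)) := by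
      rw [Projectivization.card_of_finrank F G (hr G hG),
        Projectivization.card_of_finrank F (Fin r → F) (n := r) (by simp)]
    have hsurj := ((Nat.bijective_iff_injective_and_card f).2 ⟨hinj, hcard⟩).2
    obtain ⟨u, hu, hu0⟩ := exists_ne_zero_of_finrank hL
    obtain ⟨P, hP⟩ := hsurj (Projectivization.mk F u hu0)
    obtain ⟨m, hm⟩ := (Projectivization.mk_eq_mk_iff' _ _ _ _ _).1 hP
    have hP0 : (P.rep : V) ≠ 0 := by simpa using P.rep_nonzero
    have hcP : c P.rep ∈ L := by rw [← hm]; exact L.smul_mem _ hu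
    refine ⟨F ∙ (P.rep : V), ⟨⟨isPoint_span (hG.1 _ P.rep.2) hP0, P.rep,
      Submodule.mem_span_singleton_self _, hP0, hcP⟩,
      (Submodule.span_singleton_le_iff_mem _ _).2 P.rep.2⟩, ?_⟩
    rintro P' ⟨⟨hP', w, hw, hw0, hc⟩, hle⟩
    rw [eq_span_of_finrank hL hcP (h1 _ (hG.1 _ P.rep.2) hP0)] at hc
    obtain ⟨m', hm'⟩ := Submodule.mem_span_singleton.1 hc
    obtain ⟨l, hl⟩ := h3 _ _ m' (hG.1 _ P.rep.2) (hP'.1 w hw) hP0 hw0
      (TotSing.polar hG.1 P.rep.2 (hle hw)) hm'.symm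
    rw [eq_span_of_finrank hP'.2 hw hw0]
    symm
    refine eq_span_of_finrank (finrank_span_singleton hP0) ?_ hw0
    rw [hl]; exact Submodule.smul_mem _ _ (Submodule.mem_span_singleton_self _)
  · rintro _ ⟨L, hL, rfl⟩ _ ⟨L', hL', rfl⟩ hne
    rw [Function.onFun, Set.disjoint_left]
    intro P hP hP'
    apply hne
    obtain ⟨hp, v, hv, hv0, hc⟩ := hP
    have h4 := hall L' P hP' v hv hv0
    have h5 := h1 v (hp.1 v hv) hv0
    rw [eq_span_of_finrank hL hc h5, eq_span_of_finrank hL' h4 h5]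
  · ext P
    constructor
    · rintro ⟨_, ⟨L, -, rfl⟩, hP⟩
      exact hP.1
    · intro hP
      obtain ⟨v, hv, hv0⟩ := exists_ne_zero_of_finrank hP.2
      exact ⟨_, ⟨F ∙ c v, finrank_span_singleton (h1 v (hP.1 v hv) hv0), rfl⟩, hP, v, hv, hv0,
        Submodule.mem_span_singleton_self _⟩

/-- a colouring of the standard hyperbolic quadric -/
def Col (F : Type*) [Field F] (r : ℕ) : Prop :=
  ∃ c : (Fin r → F) → (Fin r → F) → (Fin r → F),
    (∀ s t, s ⬝ᵥ t = 0 → ¬ (s = 0 ∧ t = 0) → c s t ≠ 0) ∧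
    (∀ s t (l : F), s ⬝ᵥ t = 0 → l ≠ 0 → ∃ m : F, c (l • s) (l • t) = m • c s t) ∧
    (∀ s t s' t' (m : F), s ⬝ᵥ t = 0 → s' ⬝ᵥ t' = 0 → ¬ (s = 0 ∧ t = 0) → ¬ (s' = 0 ∧ t' = 0) →
      s ⬝ᵥ t' + s' ⬝ᵥ t = 0 → c s' t' = m • c s t → ∃ l : F, s' = l • s ∧ t' = l • t)

lemma partition_of_col [Finite F] [FiniteDimensional F V] (hQ : Q.radical = ⊥) {r : ℕ}
    (hr : HasWittIndex Q r) (hn : finrank F V = 2 * r) (h : Col F r) : HasOvoidPartition Q := by
  obtain ⟨G, hG, -⟩ := exists_gen (Q := Q) (W := ⊥) (by intro v hv; simp_all)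
  obtain ⟨e, he⟩ := exists_hyp hQ hG.1 (hr G hG) hn
  obtain ⟨c, h1, h2, h3⟩ := h
  refine partition_of_colouring hr (fun v => c (e.symm v).1 (e.symm v).2) ?_ ?_ ?_
  · intro v hv h0
    obtain ⟨⟨s, t⟩, rfl⟩ := e.surjective v
    rw [e.symm_apply_apply]
    refine h1 s t (by rw [← he, hv]) ?_
    rintro ⟨rfl, rfl⟩
    exact h0 e.map_zero
  · intro v l hv hl
    obtain ⟨⟨s, t⟩, rfl⟩ := e.surjective v
    simp only [map_smul, e.symm_apply_apply, Prod.smul_mk]
    exact h2 s t l (by rw [← he, hv]) hl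
  · intro v w m hv hw hv0 hw0 hp hc
    obtain ⟨⟨s, t⟩, rfl⟩ := e.surjective v
    obtain ⟨⟨s', t'⟩, rfl⟩ := e.surjective w
    simp only [e.symm_apply_apply] at hc
    have h4 := q_add Q (e (s, t)) (e (s', t'))
    rw [← map_add, Prod.mk_add_mk, he, hv, hw, hp, add_dotProduct, dotProduct_add, dotProduct_add,
      ← he s t, ← he s' t', hv, hw] at h4
    obtain ⟨l, rfl, rfl⟩ := h3 s t s' t' m (by rw [← he, hv]) (by rw [← he, hw])
      (by rintro ⟨rfl, rfl⟩; exact hv0 e.map_zero) (by rintro ⟨rfl, rfl⟩; exact hw0 e.map_zero)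
      (by linear_combination h4) hc
    exact ⟨l, by rw [← map_smul, Prod.smul_mk]⟩

lemma Col.map {F' : Type*} [Field F'] {r : ℕ} (e : F ≃+* F') (h : Col F r) : Col F' r := by
  obtain ⟨c, h1, h2, h3⟩ := h
  have hdot : ∀ s t : Fin r → F', (e.symm ∘ s) ⬝ᵥ (e.symm ∘ t) = e.symm (s ⬝ᵥ t) := by
    intro s t; simp [dotProduct]
  have hz : ∀ s : Fin r → F', e.symm ∘ s = 0 → s = 0 := by
    intro s hs; funext i; simpa using congrFun hs i
  have hsm : ∀ (l : F') (s : Fin r → F'), e.symm ∘ (l • s) = e.symm l • (e.symm ∘ s) := by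
    intro l s; funext i; simp
  refine ⟨fun s t => e ∘ c (e.symm ∘ s) (e.symm ∘ t), ?_, ?_, ?_⟩
  · intro s t hst h0 hc
    refine h1 _ _ (by rw [hdot, hst, map_zero]) (fun h => h0 ⟨hz _ h.1, hz _ h.2⟩) ?_
    funext i; simpa using congrFun hc i
  · intro s t l hst hl
    obtain ⟨m, hm⟩ := h2 _ _ (e.symm l) (by rw [hdot, hst, map_zero]) (by simpa using hl)
    refine ⟨e m, ?_⟩
    simp only [hsm, hm]
    funext i; simp
  · intro s t s' t' m h h' h0 h0' hp hc
    obtain ⟨l, hs, ht⟩ := h3 _ _ _ _ (e.symm m) (by rw [hdot, h, map_zero])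
      (by rw [hdot, h', map_zero]) (fun h => h0 ⟨hz _ h.1, hz _ h.2⟩)
      (fun h => h0' ⟨hz _ h.1, hz _ h.2⟩) (by rw [hdot, hdot, ← map_add, hp, map_zero]) (by
        funext i
        apply e.injective
        simpa using congrFun hc i)
    refine ⟨e l, ?_, ?_⟩
    · funext i
      apply e.symm.injective
      simpa using congrFun hs i
    · funext i
      apply e.symm.injective
      simpa using congrFun ht i

lemma exists_aniso [Finite F] [CharP F 2] :
    ∃ d : F, ∀ a b : F, a ^ 2 + a * b + d * b ^ 2 = 0 → a = 0 ∧ b = 0 := by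
  have h : ¬ Function.Surjective fun x : F => x ^ 2 + x := by
    rw [← Finite.injective_iff_surjective]
    intro h
    have : (1 : F) = 0 := h (by simp [CharTwo.add_self_eq_zero])
    exact one_ne_zero this
  unfold Function.Surjective at h
  push Not at h
  obtain ⟨d, hd⟩ := h
  refine ⟨d, fun a b hab => ?_⟩
  have h2 : (2 : F) = 0 := CharTwo.two_eq_zero
  by_cases hb : b = 0
  · subst hb
    simpa using hab
  · exfalso
    apply hd (a / b)
    field_simp
    linear_combination hab - d * b ^ 2 * h2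

lemma col_two [Finite F] [CharP F 2] : Col F 2 := by
  obtain ⟨d, hd⟩ := exists_aniso (F := F)
  have h2 : (2 : F) = 0 := CharTwo.two_eq_zero
  refine ⟨fun s t => ![t 1 + d * s 1, t 0 + s 0 + s 1], ?_, ?_, ?_⟩
  · intro s t hst h0 hc
    have e0 : t 1 + d * s 1 = 0 := congrFun hc 0
    have e1 : t 0 + s 0 + s 1 = 0 := congrFun hc 1
    simp only [dotProduct, Fin.sum_univ_two] at hst
    obtain ⟨a0, a1⟩ := hd (s 0) (s 1) (by
      linear_combination s 0 * e1 + s 1 * e0 - hst)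
    apply h0
    refine ⟨?_, ?_⟩ <;> funext i <;> fin_cases i
    · exact a0
    · exact a1
    · show t 0 = 0
      linear_combination e1 - a0 - a1
    · show t 1 = 0
      linear_combination e0 - d * a1
  · intro s t l _ _
    refine ⟨l, ?_⟩
    funext i; fin_cases i <;> simp <;> ring
  · intro s t s' t' m h h' _ _ hp hc
    have e0 : t' 1 + d * s' 1 = m * (t 1 + d * s 1) := congrFun hc 0
    have e1 : t' 0 + s' 0 + s' 1 = m * (t 0 + s 0 + s 1) := congrFun hc 1
    simp only [dotProduct, Fin.sum_univ_two] at h h' hp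
    obtain ⟨a0, a1⟩ := hd (s' 0 - m * s 0) (s' 1 - m * s 1) (by
      linear_combination (s' 0 - m * s 0) * e1 + (s' 1 - m * s 1) * e0 - h' - m ^ 2 * h + m * hp)
    refine ⟨m, ?_, ?_⟩ <;> funext i <;> fin_cases i <;> simp
    · linear_combination a0
    · linear_combination a1
    · linear_combination e1 - a0 - a1
    · linear_combination e0 - d * a1

set_option synthInstance.maxSize 100000 in
set_option maxRecDepth 100000 in
lemma col_three_two : Col (ZMod 2) 3 := by
  refine ⟨fun s t => ![t 0 + s 1 * t 2 + s 0, t 1 + t 0 + t 0 * t 2 + s 1,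
    t 2 + t 0 + s 2 + s 1 + s 1 * t 0], by decide, by decide, ?_⟩
  intro s t s' t' m h h' h0 h0' hp hc
  have key : ∀ a b c d e f a' b' c' d' e' f' m : ZMod 2, a * d + b * e + c * f = 0 →
      a' * d' + b' * e' + c' * f' = 0 →
      a * d' + b * e' + c * f' + (a' * d + b' * e + c' * f) = 0 →
      d' + b' * f' + a' = m * (d + b * f + a) → e' + d' + d' * f' + b' = m * (e + d + d * f + b) →
      f' + d' + c' + b' + b' * d' = m * (f + d + c + b + b * d) →
      (a = 0 ∧ b = 0 ∧ c = 0 ∧ d = 0 ∧ e = 0 ∧ f = 0) ∨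
      (a' = m * a ∧ b' = m * b ∧ c' = m * c ∧ d' = m * d ∧ e' = m * e ∧ f' = m * f) := by
    decide
  simp only [dotProduct, Fin.sum_univ_three] at h h' hp
  rcases key _ _ _ _ _ _ _ _ _ _ _ _ m h h' hp (congrFun hc 0) (congrFun hc 1) (congrFun hc 2) with
    k | k
  · exfalso
    apply h0
    constructor <;> funext i <;> fin_cases i <;> simp [k]
  · refine ⟨m, ?_, ?_⟩ <;> funext i <;> fin_cases i <;> simp [k]

end Pool.Agent.MP_da2386_co
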