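import Pool.Agent.MP_da2386_co.Col

open Module QuadraticMap

namespace Pool.Agent.MP_da2386_co

variable {F : Type*} [Field F]

/-- the anisotropic binary form -/
def nf (d a b : F) : F := a ^ 2 + a * b + d * b ^ 2

open Classical in
/-- a colouring of Denniston type -/
noncomputable def cc (d τ α γ x1 x2 y1 y2 : F) : Fin 3 → F :=
  if α = 0 then ![x1, x2, γ] else if y1 = 0 ∧ y2 = 0 then ![0, 0, 1] else
    ![α * y1, α * y2, y1 * x2 + y2 * x1 + τ * nf d y1 y2]

section
variable [CharP F 2] {d τ σ : F} (hd : ∀ a b : F, nf d a b = 0 → a = 0 ∧ b = 0)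
  (hτ0 : τ ≠ 0) (hτ : τ * σ = σ ^ 2 + 1)
include hd hτ0 hτ

lemma den_key {z1 z2 y1 y2 : F} (hn : nf d z1 z2 = nf d y1 y2)
    (hb : y1 * z2 + y2 * z1 = τ * nf d y1 y2) : y1 = 0 ∧ y2 = 0 := by
  have h2 : (2 : F) = 0 := CharTwo.two_eq_zero
  have h3 : nf d (z1 * y1 + z1 * y2 + d * z2 * y2) (y1 * z2 + y2 * z1) =
      nf d z1 z2 * nf d y1 y2 := by
    unfold nf
    linear_combination (z1 ^ 2 * y1 * y2 + z1 ^ 2 * y2 ^ 2 + 2 * d * z1 * z2 * y1 * y2 +
      d * z1 * z2 * y2 ^ 2) * h2
  rw [hn, hb] at h3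
  apply hd
  generalize nf d y1 y2 = n at *
  generalize z1 * y1 + z1 * y2 + d * z2 * y2 = c at *
  have h4 := (hd (c + σ * n) (τ * n) (by
    unfold nf at *
    linear_combination h3 + n ^ 2 * hτ + (c * σ * n + σ ^ 2 * n ^ 2 + n ^ 2) * h2)).2
  exact (mul_eq_zero.1 h4).resolve_left hτ0

lemma den_mixed {α γ' x1 x2 y1 y2 x1' x2' y1' y2' m : F}
    (h' : nf d x1' x2' + nf d y1' y2' = 0)
    (hp : α * γ' + (x1 * x2' + x2 * x1') + (y1 * y2' + y2 * y1') = 0)
    (e1 : x1' = m * (α * y1)) (e2 : x2' = m * (α * y2))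
    (e3 : γ' = m * (y1 * x2 + y2 * x1 + τ * nf d y1 y2)) : x1' = 0 ∧ x2' = 0 := by
  have h2 : (2 : F) = 0 := CharTwo.two_eq_zero
  refine den_key hd hτ0 hτ (z1 := y1') (z2 := y2') ?_ ?_
  · linear_combination h' - nf d x1' x2' * h2
  · subst e1 e2 e3
    unfold nf at *
    linear_combination (m * α) * hp - (m ^ 2 * α ^ 2 * (y1 * x2 + y2 * x1 +
      τ * (y1 ^ 2 + y1 * y2 + d * y2 ^ 2))) * h2

lemma cc_inj {α γ x1 x2 y1 y2 α' γ' x1' x2' y1' y2' m : F}
    (h : α * γ + nf d x1 x2 + nf d y1 y2 = 0) (h' : α' * γ' + nf d x1' x2' + nf d y1' y2' = 0)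
    (h0 : ¬ (α = 0 ∧ γ = 0 ∧ x1 = 0 ∧ x2 = 0)) (h0' : ¬ (α' = 0 ∧ γ' = 0 ∧ x1' = 0 ∧ x2' = 0))
    (hp : α * γ' + α' * γ + (x1 * x2' + x2 * x1') + (y1 * y2' + y2 * y1') = 0)
    (hc : cc d τ α' γ' x1' x2' y1' y2' = m • cc d τ α γ x1 x2 y1 y2) :
    ∃ l, α' = l * α ∧ γ' = l * γ ∧ x1' = l * x1 ∧ x2' = l * x2 ∧ y1' = l * y1 ∧ y2' = l * y2 := by
  have h2 : (2 : F) = 0 := CharTwo.two_eq_zero
  have e1 := congrFun hc 0
  have e2 := congrFun hc 1
  have e3 := congrFun hc 2
  by_cases hα : α = 0
  · by_cases hα' : α' = 0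
    · subst hα hα'
      simp only [cc, if_true, Pi.smul_apply, smul_eq_mul, Matrix.cons_val_zero,
        Matrix.cons_val_one, Matrix.cons_val] at e1 e2 e3
      subst e1 e2 e3
      obtain ⟨a1, a2⟩ := hd (y1' - m * y1) (y2' - m * y2) (by
        unfold nf at *
        linear_combination h' + m ^ 2 * h - m * hp +
          (m ^ 2 * x1 * x2 - m ^ 2 * (x1 ^ 2 + x1 * x2 + d * x2 ^ 2) - m * y1 * y1' -
            d * m * y2 * y2') * h2)
      exact ⟨m, by simp, rfl, rfl, rfl, by linear_combination a1, by linear_combination a2⟩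
    · exfalso
      subst hα
      by_cases hy' : y1' = 0 ∧ y2' = 0
      · simp only [cc, if_true, if_neg hα', if_pos hy', Pi.smul_apply, smul_eq_mul,
          Matrix.cons_val_zero, Matrix.cons_val_one, Matrix.cons_val] at e1 e2 e3
        have hm : m ≠ 0 := by rintro rfl; simp at e3
        have a1 : x1 = 0 := (mul_eq_zero.1 e1.symm).resolve_left hm
        have a2 : x2 = 0 := (mul_eq_zero.1 e2.symm).resolve_left hm
        obtain ⟨rfl, rfl⟩ := hy'
        subst a1 a2
        apply h0
        simpa [hα'] using hp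
      · simp only [cc, if_true, if_neg hα', if_neg hy', Pi.smul_apply, smul_eq_mul,
          Matrix.cons_val_zero, Matrix.cons_val_one, Matrix.cons_val] at e1 e2 e3
        have hm : m ≠ 0 := by
          rintro rfl
          simp only [zero_mul, mul_eq_zero, hα', false_or] at e1 e2
          exact hy' ⟨e1, e2⟩
        obtain ⟨a1, a2⟩ := den_mixed hd hτ0 hτ (α := α') (γ' := γ) (x1 := x1') (x2 := x2')
          (y1 := y1') (y2 := y2') (x1' := x1) (x2' := x2) (y1' := y1) (y2' := y2) (m := m⁻¹)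
          (by linear_combination h) (by linear_combination hp) (by rw [e1]; field_simp)
          (by rw [e2]; field_simp) (by rw [e3]; field_simp)
        subst a1 a2
        simp only [mul_zero, mul_eq_zero, hα', false_or] at e1 e2
        exact hy' ⟨e1, e2⟩
  · by_cases hα' : α' = 0
    · exfalso
      subst hα'
      by_cases hy : y1 = 0 ∧ y2 = 0
      · simp only [cc, if_true, if_neg hα, if_pos hy, Pi.smul_apply, smul_eq_mul,
          Matrix.cons_val_zero, Matrix.cons_val_one, Matrix.cons_val, mul_zero] at e1 e2 e3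
        obtain ⟨rfl, rfl⟩ := hy
        subst e1 e2
        apply h0'
        simpa [hα] using hp
      · simp only [cc, if_true, if_neg hα, if_neg hy, Pi.smul_apply, smul_eq_mul,
          Matrix.cons_val_zero, Matrix.cons_val_one, Matrix.cons_val] at e1 e2 e3
        obtain ⟨a1, a2⟩ := den_mixed hd hτ0 hτ (α := α) (γ' := γ') (x1 := x1) (x2 := x2)
          (y1 := y1) (y2 := y2) (x1' := x1') (x2' := x2') (y1' := y1') (y2' := y2') (m := m)
          (by linear_combination h') (by linear_combination hp) e1 e2 e3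
        have hm : m = 0 := by
          by_contra hm
          rw [a1] at e1
          rw [a2] at e2
          simp only [zero_eq_mul, hm, hα, false_or, mul_eq_zero] at e1 e2
          exact hy ⟨e1, e2⟩
        apply h0'
        exact ⟨rfl, by rw [e3, hm, zero_mul], a1, a2⟩
    · have hN : nf d (α' * x1 + α * x1') (α' * x2 + α * x2') =
          nf d (α' * y1 + α * y1') (α' * y2 + α * y2') := by
        unfold nf at *
        linear_combination α' ^ 2 * h + α ^ 2 * h' + α * α' * hp +
          (α * α' * (x1 * x1' + d * x2 * x2') - α * α' * (y1 * y1' + d * y2 * y2') -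
            α * α' * (α' * γ + α * γ') - α * α' * (y1 * y2' + y2 * y1') -
            α' ^ 2 * (y1 ^ 2 + y1 * y2 + d * y2 ^ 2) -
            α ^ 2 * (y1' ^ 2 + y1' * y2' + d * y2' ^ 2)) * h2
      have hY : α' * y1 + α * y1' = 0 ∧ α' * y2 + α * y2' = 0 := by
        by_cases hy : y1 = 0 ∧ y2 = 0
        · by_cases hy' : y1' = 0 ∧ y2' = 0
          · simp [hy.1, hy.2, hy'.1, hy'.2]
          · exfalso
            simp only [cc, if_neg hα, if_neg hα', if_pos hy, if_neg hy', Pi.smul_apply,
              smul_eq_mul, Matrix.cons_val_zero, Matrix.cons_val_one, Matrix.cons_val,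
              mul_zero] at e1 e2
            exact hy' ⟨(mul_eq_zero.1 e1).resolve_left hα', (mul_eq_zero.1 e2).resolve_left hα'⟩
        · by_cases hy' : y1' = 0 ∧ y2' = 0
          · exfalso
            simp only [cc, if_neg hα, if_neg hα', if_neg hy, if_pos hy', Pi.smul_apply,
              smul_eq_mul, Matrix.cons_val_zero, Matrix.cons_val_one, Matrix.cons_val] at e1 e2 e3
            have hm : m ≠ 0 := by rintro rfl; simp at e3
            simp only [zero_eq_mul, hm, hα, false_or, mul_eq_zero] at e1 e2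
            exact hy ⟨e1, e2⟩
          · simp only [cc, if_neg hα, if_neg hα', if_neg hy, if_neg hy', Pi.smul_apply,
              smul_eq_mul, Matrix.cons_val_zero, Matrix.cons_val_one, Matrix.cons_val] at e1 e2 e3
            obtain ⟨μ, rfl⟩ : ∃ μ, m = μ * α' / α := ⟨m * α / α', by field_simp⟩
            have b1 : y1' = μ * y1 := by
              field_simp at e1
              linear_combination e1
            have b2 : y2' = μ * y2 := by
              field_simp at e2
              linear_combination e2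
            have hμ : μ ≠ 0 := by
              rintro rfl
              exact hy' ⟨by rw [b1, zero_mul], by rw [b2, zero_mul]⟩
            subst b1 b2
            refine den_key hd hτ0 hτ hN ?_
            unfold nf at *
            field_simp at e3
            linear_combination (α' + α * μ) * e3 + ((α' + α * μ) * (α' * (y1 * x2 + y2 * x1) -
              α * μ * τ * (y1 ^ 2 + y1 * y2 + d * y2 ^ 2))) * h2
      have hX := hd _ _ (by rw [hN, hY.1, hY.2]; simp [nf])
      have c1 : x1' = α' / α * x1 := by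
        field_simp
        linear_combination hX.1 - α' * x1 * h2
      have c2 : x2' = α' / α * x2 := by
        field_simp
        linear_combination hX.2 - α' * x2 * h2
      have c3 : y1' = α' / α * y1 := by
        field_simp
        linear_combination hY.1 - α' * y1 * h2
      have c4 : y2' = α' / α * y2 := by
        field_simp
        linear_combination hY.2 - α' * y2 * h2
      refine ⟨α' / α, by field_simp, ?_, c1, c2, c3, c4⟩
      have c5 : α * γ' + α' * γ = 0 := by
        rw [c1, c2, c3, c4] at hp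
        linear_combination hp - (α' / α * (x1 * x2 + y1 * y2)) * h2
      field_simp
      linear_combination c5 - α' * γ * h2

end

lemma cc_smul (d τ α γ x1 x2 y1 y2 : F) {l : F} (hl : l ≠ 0) :
    ∃ m : F, cc d τ (l * α) (l * γ) (l * x1) (l * x2) (l * y1) (l * y2) =
      m • cc d τ α γ x1 x2 y1 y2 := by
  unfold cc
  by_cases a : α = 0
  · refine ⟨l, ?_⟩
    rw [if_pos a, if_pos (by rw [a, mul_zero])]
    funext i; fin_cases i <;> simp
  · rw [if_neg a, if_neg (mul_ne_zero hl a)]
    by_cases b : y1 = 0 ∧ y2 = 0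
    · refine ⟨1, ?_⟩
      rw [if_pos b, if_pos (by rw [b.1, b.2]; simp), one_smul]
    · refine ⟨l ^ 2, ?_⟩
      rw [if_neg b, if_neg (by simpa [hl] using b)]
      funext i; fin_cases i <;> simp [nf] <;> ring

lemma col_three_big [Finite F] [CharP F 2] {σ : F} (h0 : σ ≠ 0) (h1 : σ ≠ 1) : Col F 3 := by
  obtain ⟨d, hd⟩ := exists_aniso (F := F)
  have h2 : (2 : F) = 0 := CharTwo.two_eq_zero
  have hτ : (σ + σ⁻¹) * σ = σ ^ 2 + 1 := by field_simp
  have hτ0 : σ + σ⁻¹ ≠ 0 := by
    intro h
    rw [h, zero_mul] at hτ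
    have : (σ - 1) ^ 2 = 0 := by linear_combination -hτ - σ * h2
    exact h1 (sub_eq_zero.1 (pow_eq_zero_iff two_ne_zero |>.1 this))
  have hform : ∀ s t : Fin 3 → F, s ⬝ᵥ t = 0 → s 0 * t 0 +
      nf d (t 2 + d * s 2 + s 1) (t 1 + s 1 + s 2 + s 2) +
      nf d (t 2 + d * s 2) (t 1 + s 1 + s 2) = 0 := by
    intro s t h
    simp only [dotProduct, Fin.sum_univ_three] at h
    have : nf d (t 2 + d * s 2 + s 1) (t 1 + s 1 + s 2 + s 2) =
        nf d (t 2 + d * s 2) (t 1 + s 1 + s 2) + nf d (s 1) (s 2) +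
        ((t 2 + d * s 2) * s 2 + (t 1 + s 1 + s 2) * s 1) := by
      unfold nf
      linear_combination ((t 2 + d * s 2) * s 1 + d * (t 1 + s 1 + s 2) * s 2) * h2
    rw [this]
    generalize nf d (t 2 + d * s 2) (t 1 + s 1 + s 2) = n
    unfold nf
    linear_combination h + (n + s 1 ^ 2 + s 1 * s 2 + d * s 2 ^ 2) * h2
  have hne : ∀ s t : Fin 3 → F, s ⬝ᵥ t = 0 → ¬ (s = 0 ∧ t = 0) → ¬ (s 0 = 0 ∧ t 0 = 0 ∧
      t 2 + d * s 2 + s 1 = 0 ∧ t 1 + s 1 + s 2 + s 2 = 0) := by
    rintro s t h hn ⟨a1, a2, a3, a4⟩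
    have h3 := hform s t h
    rw [a1, a3, a4] at h3
    obtain ⟨b1, b2⟩ := hd (t 2 + d * s 2) (t 1 + s 1 + s 2) (by simpa [nf] using h3)
    have c1 : s 1 = 0 := by linear_combination a3 - b1
    have c2 : s 2 = 0 := by linear_combination a4 - b2
    apply hn
    refine ⟨?_, ?_⟩ <;> funext i <;> fin_cases i
    · exact a1
    · exact c1
    · exact c2
    · exact a2
    · show t 1 = 0
      linear_combination b2 - c1 - c2
    · show t 2 = 0
      linear_combination b1 - d * c2
  refine ⟨fun s t => cc d (σ + σ⁻¹) (s 0) (t 0) (t 2 + d * s 2 + s 1) (t 1 + s 1 + s 2 + s 2)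
    (t 2 + d * s 2) (t 1 + s 1 + s 2), ?_, ?_, ?_⟩
  · intro s t h hn hc
    have e1 := congrFun hc 0
    have e2 := congrFun hc 1
    have e3 := congrFun hc 2
    simp only [cc] at e1 e2 e3
    split_ifs at e1 e2 e3 with a b
    · exact hne s t h hn ⟨a, e3, e1, e2⟩
    · exact one_ne_zero e3
    · exact b ⟨(mul_eq_zero.1 e1).resolve_left a, (mul_eq_zero.1 e2).resolve_left a⟩
  · intro s t l _ hl
    obtain ⟨m, hm⟩ := cc_smul d (σ + σ⁻¹) (s 0) (t 0) (t 2 + d * s 2 + s 1)
      (t 1 + s 1 + s 2 + s 2) (t 2 + d * s 2) (t 1 + s 1 + s 2) hl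
    refine ⟨m, ?_⟩
    rw [← hm]
    simp only [Pi.smul_apply, smul_eq_mul]
    congr 1 <;> ring
  · intro s t s' t' m h h' hn hn' hp hc
    simp only [dotProduct, Fin.sum_univ_three] at hp
    obtain ⟨l, a1, a2, a3, a4, a5, a6⟩ := cc_inj hd hτ0 hτ (hform s t h) (hform s' t' h')
      (hne s t h hn) (hne s' t' h' hn') (by
        linear_combination hp + ((t 2 + d * s 2) * (t' 1 + s' 1 + s' 2) +
          (t 1 + s 1 + s 2) * (t' 2 + d * s' 2) + d * s 2 * s' 2 + s 1 * s' 1 + s 1 * s' 2 +
          s 2 * s' 1) * h2) hc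
    have c1 : s' 1 = l * s 1 := by linear_combination a3 - a5
    have c2 : s' 2 = l * s 2 := by linear_combination a4 - a6
    refine ⟨l, ?_, ?_⟩ <;> funext i <;> fin_cases i
    · exact a1
    · exact c1
    · exact c2
    · exact a2
    · show t' 1 = l * t 1
      linear_combination a6 - c1 - c2
    · show t' 2 = l * t 2
      linear_combination a5 - d * c2

lemma col_three [Finite F] [CharP F 2] : Col F 3 := by
  by_cases h : ∃ σ : F, σ ≠ 0 ∧ σ ≠ 1
  · obtain ⟨σ, h0, h1⟩ := h
    exact col_three_big h0 h1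
  · push Not at h
    have : Fintype F := Fintype.ofFinite F
    have hc : Fintype.card F = 2 := by
      classical
      have : (Finset.univ : Finset F) = {0, 1} := by
        ext x
        by_cases hx : x = 0
        · simp [hx]
        · simp [h x hx]
      rw [← Finset.card_univ, this, Finset.card_pair zero_ne_one]
    exact col_three_two.map (ZMod.ringEquivOfPrime F Nat.prime_two hc)

theorem char_two {V : Type*} [AddCommGroup V] [Module F V] {Q : QuadraticForm F V} [Finite F]
    [CharP F 2] [FiniteDimensional F V] (hQ : Q.radical = ⊥) {r : ℕ} (hr : HasWittIndex Q r)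
    (h2 : 2 ≤ r) : HasOvoidPartition Q ↔ (finrank F V = 2 * r ∧ r ≤ 3) := by
  refine ⟨char_two_neg hQ hr h2, fun h => partition_of_col hQ hr h.1 ?_⟩
  obtain rfl | rfl : r = 2 ∨ r = 3 := by omega
  · exact col_two
  · exact col_three

end Pool.Agent.MP_da2386_co
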