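import Pool.Agent.MP_da2386_co.Basic

open Module QuadraticMap

namespace Pool.Agent.MP_da2386_co

variable {F V : Type*} [Field F] [AddCommGroup V] [Module F V] {Q : QuadraticForm F V}

open Classical in
/-- the perpendicularity kernel -/
noncomputable def perp (Q : QuadraticForm F V) (x y : V) : F := if polar Q x y = 0 then 1 else 0

/-- `perp` has rank at most `card κ` on singular vectors -/
def PerpFactor (Q : QuadraticForm F V) (κ : Type) [Fintype κ] : Prop :=
  ∃ φ ψ : κ → V → F, ∀ x y, Q x = 0 → Q y = 0 → perp Q x y = ∑ k, φ k x * ψ k y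

/-- an ovoid whose size reaches the rank resolves the kernel -/
lemma IsOvoid.resolve [FiniteDimensional F V] {O : Finset (Submodule F V)}
    (hO : IsOvoid Q (O : Set (Submodule F V))) {κ : Type} [Fintype κ] (hf : PerpFactor Q κ)
    (hc : Fintype.card κ ≤ O.card) (rep : Submodule F V → V)
    (hrep : ∀ P ∈ O, rep P ∈ P ∧ rep P ≠ 0) {a b : V} (ha : Q a = 0) (hb : Q b = 0) :
    perp Q a b = ∑ P ∈ O, perp Q a (rep P) * perp Q (rep P) b := by
  classical
  obtain ⟨φ, ψ, h⟩ := hf
  have hs : ∀ P ∈ O, Q (rep P) = 0 := fun P hP => (hO.1 P hP).1 _ (hrep P hP).1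
  let A : Matrix O κ F := fun P k => φ k (rep P)
  let B : Matrix κ O F := fun k P => ψ k (rep P)
  have hAB : A * B = 1 := by
    ext P P'
    rw [Matrix.mul_apply]
    simp only [A, B]
    rw [← h _ _ (hs _ P.2) (hs _ P'.2), perp, Matrix.one_apply]
    by_cases e : P = P'
    · subst e
      rw [if_pos rfl, if_pos]
      rw [polar_self, hs _ P.2]; simp
    · rw [if_neg e, if_neg]
      intro hp
      exact e (Subtype.ext (hO.eq_of_polar P.2 P'.2 (hrep _ P.2).1 (hrep _ P'.2).1
        (hrep _ P.2).2 (hrep _ P'.2).2 hp))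
  have hle : O.card ≤ Fintype.card κ := by
    have h1 := Matrix.rank_mul_le_left A B
    rw [hAB, Matrix.rank_one, Fintype.card_coe] at h1
    exact h1.trans (Matrix.rank_le_card_width A)
  have hBA : B * A = 1 :=
    (Matrix.mul_eq_one_comm_of_card_eq _ _ _ (by rw [Fintype.card_coe]; omega)).1 hAB
  rw [← Finset.sum_coe_sort O, h a b ha hb]
  have h2 : ∀ P : O, perp Q a (rep P) * perp Q (rep P) b =
      ∑ k, ∑ k', φ k a * (B k P * A P k') * ψ k' b := by
    intro P
    rw [h a _ ha (hs _ P.2), h _ b (hs _ P.2) hb, Finset.sum_mul_sum]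
    refine Finset.sum_congr rfl fun k _ => Finset.sum_congr rfl fun k' _ => ?_
    simp only [A, B]; ring
  simp_rw [h2]
  rw [Finset.sum_comm]
  refine Finset.sum_congr rfl fun k _ => ?_
  rw [Finset.sum_comm]
  simp_rw [← Finset.sum_mul, ← Finset.mul_sum, ← Matrix.mul_apply, hBA, Matrix.one_apply]
  simp

/-- Chevalley-Warning for the singular vectors perpendicular to two vectors -/
lemma cw [Fintype F] [FiniteDimensional F V] (hn : 5 ≤ finrank F V) (a b : V) :
    ((Nat.card {v : V // Q v = 0 ∧ polar Q a v = 0 ∧ polar Q v b = 0} : ℕ) : F) = 0 := by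
  classical
  obtain ⟨p, hp⟩ := CharP.exists F
  let e := Module.finBasis F V
  obtain ⟨β, hβ⟩ := LinearMap.BilinMap.toQuadraticMap_surjective (R := F) Q
  let n := finrank F V
  let lin : (V →ₗ[F] F) → MvPolynomial (Fin n) F := fun l =>
    ∑ i, MvPolynomial.C (l (e i)) * MvPolynomial.X i
  have hlin : ∀ l (x : Fin n → F), MvPolynomial.eval x (lin l) = l (e.equivFun.symm x) := by
    intro l x
    simp [lin, mul_comm]
  have hdeg : ∀ l, (lin l).totalDegree ≤ 1 := by
    intro l
    refine (MvPolynomial.totalDegree_finsetSum _ _).trans (Finset.sup_le fun i _ => ?_)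
    refine (MvPolynomial.totalDegree_mul _ _).trans ?_
    simp [MvPolynomial.totalDegree_X]
  let f : Fin 3 → MvPolynomial (Fin n) F :=
    ![∑ i, MvPolynomial.X i * lin (β (e i)), lin (Q.polarBilin a), lin (Q.polarBilin b)]
  have hd0 : (∑ i, MvPolynomial.X i * lin (β (e i))).totalDegree ≤ 2 := by
    refine (MvPolynomial.totalDegree_finsetSum _ _).trans (Finset.sup_le fun i _ => ?_)
    refine (MvPolynomial.totalDegree_mul _ _).trans ?_
    have := hdeg (β (e i))
    rw [MvPolynomial.totalDegree_X]
    omega
  have hsum : (∑ i, (f i).totalDegree) < Fintype.card (Fin n) := by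
    have h1 := hdeg (Q.polarBilin a)
    have h2 := hdeg (Q.polarBilin b)
    simp only [Fin.sum_univ_three, f, Matrix.cons_val_zero, Matrix.cons_val_one,
      Matrix.cons_val_two, Matrix.head_cons, Matrix.tail_cons, Fintype.card_fin]
    omega
  have h : p ∣ Nat.card {x : Fin n → F // ∀ i, MvPolynomial.eval x (f i) = 0} := by
    rw [Nat.card_eq_fintype_card]
    convert char_dvd_card_solutions_of_fintype_sum_lt p hsum
  rw [CharP.cast_eq_zero_iff F p]
  convert h using 1
  symm
  refine Nat.card_congr (e.equivFun.symm.toEquiv.subtypeEquiv fun x => ?_)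
  have h0 : MvPolynomial.eval x (∑ i, MvPolynomial.X i * lin (β (e i))) =
      Q (e.equivFun.symm x) := by
    rw [← hβ, LinearMap.BilinMap.toQuadraticMap_apply]
    simp only [map_sum, map_mul, MvPolynomial.eval_X, hlin]
    generalize hy : e.equivFun.symm x = y
    conv_rhs => arg 1; rw [← hy, Basis.equivFun_symm_apply]
    simp
  rw [Fin.forall_fin_succ, Fin.forall_fin_two]
  simp only [f, Matrix.cons_val_zero, Matrix.cons_val_succ, Matrix.cons_val_one, h0, hlin,
    polarBilin_apply_apply, LinearEquiv.coe_toEquiv, polar_comm Q b]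

/-- no partition when the rank bound does not exceed the size of an ovoid -/
theorem no_partition [Fintype F] [FiniteDimensional F V] (hQ : Q.radical = ⊥)
    (hn : 5 ≤ finrank F V) {G : Submodule F V} (hG : IsGenerator Q G) {κ : Type} [Fintype κ]
    (hf : PerpFactor Q κ)
    (hc : Fintype.card κ ≤ Nat.card F ^ (finrank F V - finrank F G - 1) + 1) :
    ¬ HasOvoidPartition Q := by
  classical
  have : Finite V := Module.finite_of_finite F
  have : Fintype V := Fintype.ofFinite V
  have : Fintype (Submodule F V) := Fintype.ofFinite _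
  rintro ⟨S, hS, hdisj, hun⟩
  have hrep : ∀ P : Submodule F V, ∃ x, IsPoint Q P → x ∈ P ∧ x ≠ 0 := by
    intro P
    by_cases h : IsPoint Q P
    · obtain ⟨x, hx, h0⟩ := exists_ne_zero_of_finrank h.2
      exact ⟨x, fun _ => ⟨hx, h0⟩⟩
    · exact ⟨0, fun h' => absurd h' h⟩
  choose rep hrep using hrep
  have key : ∀ a b : V, Q a = 0 → Q b = 0 → perp Q a b = 0 →
      (∑ P ∈ Finset.univ.filter (IsPoint Q), perp Q a (rep P) * perp Q (rep P) b) = 0 := by
    intro a b ha hb hab
    have hu : Finset.univ.filter (IsPoint Q) = S.toFinset.biUnion (fun O => O.toFinset) := by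
      ext P
      have := Set.ext_iff.1 hun P
      simp only [Set.mem_sUnion, Set.mem_ofPred_eq] at this
      simp [← this]
    rw [hu, Finset.sum_biUnion]
    · refine Finset.sum_eq_zero fun O hO => ?_
      rw [Set.mem_toFinset] at hO
      have hO' : IsOvoid Q (O.toFinset : Set (Submodule F V)) := by simpa using hS O hO
      rw [← hO'.resolve hf ?_ rep (fun P hP => hrep P (hO'.1 P hP)) ha hb, hab]
      rw [← Set.ncard_eq_toFinset_card']
      exact hc.trans ((hS O hO).card_ge hQ hG)
    · intro O hO O' hO' hne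
      simp only [Set.coe_toFinset] at hO hO'
      exact Set.disjoint_toFinset.2 (hdisj hO hO' hne)
  have count : ∀ a b : V,
      ((Nat.card {v : V // Q v = 0 ∧ polar Q a v = 0 ∧ polar Q v b = 0} : ℕ) : F) =
      1 - ∑ P ∈ Finset.univ.filter (IsPoint Q), perp Q a (rep P) * perp Q (rep P) b := by
    intro a b
    rw [Nat.card_eq_fintype_card, Fintype.card_subtype]
    set T := Finset.univ.filter fun v : V => Q v = 0 ∧ polar Q a v = 0 ∧ polar Q v b = 0 with hT
    have h0 : (0 : V) ∈ T := by simp [hT]
    rw [← Finset.card_erase_add_one h0,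
      Finset.card_eq_sum_card_fiberwise (f := fun v => F ∙ v) (s := T.erase 0)
        (t := Finset.univ.filter (IsPoint Q))]
    · push_cast
      rw [add_comm, sub_eq_add_neg, ← Finset.sum_neg_distrib]
      congr 1
      refine Finset.sum_congr rfl fun P hP => ?_
      have hP' : IsPoint Q P := by simpa using hP
      obtain ⟨hx, hx0⟩ := hrep P hP'
      have e := eq_span_of_finrank hP'.2 hx hx0
      by_cases hc : polar Q a (rep P) = 0 ∧ polar Q (rep P) b = 0
      · have : (T.erase 0).filter (fun v => (F ∙ v) = P) =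
            (Finset.univ.erase (0 : F)).image (fun t => t • rep P) := by
          ext v
          simp only [hT, Finset.mem_filter, Finset.mem_erase, Finset.mem_univ, true_and,
            Finset.mem_image, and_true]
          constructor
          · rintro ⟨⟨hv0, -⟩, hv⟩
            have : v ∈ F ∙ rep P := by
              rw [← e, ← hv]; exact Submodule.mem_span_singleton_self v
            obtain ⟨t, rfl⟩ := Submodule.mem_span_singleton.1 this
            exact ⟨t, fun h => hv0 (by rw [h, zero_smul]), rfl⟩
          · rintro ⟨t, ht, rfl⟩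
            refine ⟨⟨smul_ne_zero ht hx0, hP'.1 _ (P.smul_mem _ hx), ?_, ?_⟩, ?_⟩
            · rw [polar_smul_right, hc.1, smul_zero]
            · rw [polar_smul_left, hc.2, smul_zero]
            · exact (eq_span_of_finrank hP'.2 (P.smul_mem _ hx) (smul_ne_zero ht hx0)).symm
        rw [this, Finset.card_image_of_injective _ (smul_left_injective F hx0),
          Finset.card_erase_of_mem (Finset.mem_univ _), Finset.card_univ,
          Nat.cast_sub Fintype.card_pos, FiniteField.cast_card_eq_zero]
        simp [perp, hc.1, hc.2]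
      · have : (T.erase 0).filter (fun v => (F ∙ v) = P) = ∅ := by
          rw [Finset.filter_eq_empty_iff]
          intro v hv hvP
          simp only [hT, Finset.mem_filter, Finset.mem_erase, Finset.mem_univ, true_and] at hv
          rw [← hvP] at hx
          obtain ⟨t, ht⟩ := Submodule.mem_span_singleton.1 hx
          apply hc
          rw [← hvP, ← ht, polar_smul_right, polar_smul_left, hv.2.2.1, hv.2.2.2]
          simp
        rw [this]
        by_cases h1 : polar Q a (rep P) = 0
        · have h2 : polar Q (rep P) b ≠ 0 := fun h => hc ⟨h1, h⟩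
          simp [perp, h2]
        · simp [perp, h1]
    · intro v hv
      simp only [hT, Finset.coe_erase, Finset.coe_filter, Finset.mem_univ, true_and,
        Set.mem_sdiff, Set.mem_ofPred_eq, Set.mem_singleton_iff] at hv ⊢
      exact isPoint_span hv.1.1 hv.2
  by_cases hex : ∃ a : V, a ≠ 0 ∧ Q a = 0
  · obtain ⟨a, ha0, ha⟩ := hex
    obtain ⟨v, hv⟩ := exists_polar_one hQ ha ha0
    have hb : Q (v - Q v • a) = 0 := by
      rw [sub_eq_add_neg, ← neg_smul, q_add, QuadraticMap.map_smul, ha, polar_smul_right, hv]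
      simp
    have hab : perp Q a (v - Q v • a) = 0 := by
      rw [perp, if_neg]
      rw [polar_sub_right, polar_smul_right, polar_self, ha, polar_comm, hv]; simp
    have h1 := count a (v - Q v • a)
    rw [cw hn, key a _ ha hb hab] at h1
    simp at h1
  · have h1 := count 0 0
    rw [cw hn, Finset.sum_eq_zero] at h1
    · simp at h1
    · intro P hP
      have hP' : IsPoint Q P := by simpa using hP
      exact absurd ⟨rep P, (hrep P hP').2, hP'.1 _ (hrep P hP').1⟩ hex

/-- from a factorisation of the `(p-1)`-th power of the polar form to one of `perp` -/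
lemma perpFactor_of_pow [Fintype F] {p h : ℕ} [Fact p.Prime] [CharP F p]
    (hq : Fintype.card F = p ^ h) {ι : Type} [Fintype ι] (φ ψ : ι → V → F)
    (H : ∀ x y, Q x = 0 → Q y = 0 → polar Q x y ^ (p - 1) = ∑ k, φ k x * ψ k y) :
    PerpFactor Q (Option (Fin h → ι)) := by
  classical
  refine ⟨fun o x => o.elim 1 fun f => -∏ j, φ (f j) x ^ p ^ (j : ℕ),
    fun o y => o.elim 1 fun f => ∏ j, ψ (f j) y ^ p ^ (j : ℕ), fun x y hx hy => ?_⟩
  have h1 : perp Q x y = 1 - polar Q x y ^ (Fintype.card F - 1) := by
    unfold perp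
    split_ifs with h0
    · rw [h0, zero_pow, sub_zero]
      have := Fintype.one_lt_card (α := F)
      omega
    · rw [FiniteField.pow_card_sub_one_eq_one _ h0, sub_self]
  have h2 : Fintype.card F - 1 = ∑ j : Fin h, (p - 1) * p ^ (j : ℕ) := by
    rw [hq, ← Finset.mul_sum, Fin.sum_univ_eq_sum_range (fun j => p ^ j) h, mul_comm]
    exact (geom_sum_mul_of_one_le (Fact.out : p.Prime).one_le h).symm
  rw [h1, h2, ← Finset.prod_pow_eq_pow_sum, Fintype.sum_option]
  simp only [Option.elim_none, Option.elim_some, mul_one, pow_mul, H x y hx hy, sum_pow_char_pow]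
  rw [Finset.prod_univ_sum, Fintype.piFinset_univ, sub_eq_add_neg, ← Finset.sum_neg_distrib]
  congr 1
  refine Finset.sum_congr rfl fun f _ => ?_
  rw [neg_mul, ← Finset.prod_mul_distrib]
  simp only [mul_pow]

end Pool.Agent.MP_da2386_co
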