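import Mathlib

/-! The polar space of a quadratic form: points, generators, ovoids, partitions into ovoids. -/

namespace Pool.Agent.MP_da2386_co

variable {F V : Type*} [Field F] [AddCommGroup V] [Module F V]

/-- A totally singular subspace: the form vanishes on it. -/
def TotSing (Q : QuadraticForm F V) (W : Submodule F V) : Prop := ∀ v ∈ W, Q v = 0

/-- A point: a totally singular subspace of dimension one. -/
def IsPoint (Q : QuadraticForm F V) (P : Submodule F V) : Prop :=
  TotSing Q P ∧ Module.finrank F P = 1

/-- A generator: a maximal totally singular subspace. -/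
def IsGenerator (Q : QuadraticForm F V) (G : Submodule F V) : Prop := Maximal (TotSing Q) G

/-- Witt index `r`: the generators have dimension `r`. -/
def HasWittIndex (Q : QuadraticForm F V) (r : ℕ) : Prop :=
  ∀ G, IsGenerator Q G → Module.finrank F G = r

/-- An ovoid: a set of points meeting every generator in exactly one point. -/
def IsOvoid (Q : QuadraticForm F V) (O : Set (Submodule F V)) : Prop :=
  (∀ P ∈ O, IsPoint Q P) ∧ ∀ G, IsGenerator Q G → ∃! P, P ∈ O ∧ P ≤ G

/-- The set of all points is a union of pairwise disjoint ovoids. -/
def HasOvoidPartition (Q : QuadraticForm F V) : Prop :=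
  ∃ S : Set (Set (Submodule F V)), (∀ O ∈ S, IsOvoid Q O) ∧ S.PairwiseDisjoint id ∧
    ⋃₀ S = {P | IsPoint Q P}

end Pool.Agent.MP_da2386_co
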