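import Pool.Agent.MP_da2386_co.Three

open Module QuadraticMap

namespace Pool.Agent.MP_da2386_co

variable {F V : Type*} [Field F] [AddCommGroup V] [Module F V] {Q : QuadraticForm F V}

lemma polar_factor [FiniteDimensional F V] (Q : QuadraticForm F V) :
    ∃ φ ψ : Fin (finrank F (LinearMap.range Q.polarBilin)) → V → F,
      ∀ x y, polar Q x y = ∑ k, φ k x * ψ k y := by
  have : Module.Free F (LinearMap.range Q.polarBilin) :=
    Module.Free.of_divisionRing F (LinearMap.range (Q.polarBilin : V →ₗ[F] Module.Dual F V))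
  let b := Module.finBasis F (LinearMap.range Q.polarBilin)
  refine ⟨fun k x => b.repr ⟨Q.polarBilin x, LinearMap.mem_range_self _ x⟩ k,
    fun k y => (b k : Module.Dual F V) y, fun x y => ?_⟩
  have := congrArg (fun l : LinearMap.range Q.polarBilin => (l : Module.Dual F V) y)
    (b.sum_repr ⟨Q.polarBilin x, LinearMap.mem_range_self _ x⟩)
  simp only [Submodule.coe_sum, Submodule.coe_smul, LinearMap.sum_apply, LinearMap.smul_apply,
    smul_eq_mul, polarBilin_apply_apply] at this
  exact this.symm

lemma det_alt_odd [CharP F 2] {n : ℕ} (hn : ¬ 2 ∣ n) (A : Matrix (Fin n) (Fin n) F)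
    (hs : ∀ i j, A i j = A j i) (hd : ∀ i, A i i = 0) : A.det = 0 := by
  rw [Matrix.det_apply]
  refine Finset.sum_involution (fun σ _ => σ⁻¹) ?_ ?_ (fun _ _ => Finset.mem_univ _)
    (fun _ _ => inv_inv _)
  · intro σ _
    have : ∏ i, A (σ⁻¹ i) i = ∏ i, A (σ i) i := by
      rw [← Equiv.prod_comp σ]
      simp [hs]
    rw [this, Equiv.Perm.sign_inv]
    exact CharTwo.add_self_eq_zero _
  · intro σ _ h1 h2
    apply h1
    have h3 : σ ^ 2 ^ 1 = 1 := by
      rw [pow_one, pow_two]
      nth_rewrite 1 [← h2]
      exact inv_mul_cancel σ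
    obtain ⟨i, hi⟩ := Equiv.Perm.exists_fixed_point_of_prime (p := 2) (by simpa using hn) h3
    rw [Finset.prod_eq_zero (Finset.mem_univ i) (by rw [hi, hd]), smul_zero]

lemma rank_polar_lt [CharP F 2] [FiniteDimensional F V] (hn : ¬ 2 ∣ finrank F V) :
    finrank F (LinearMap.range Q.polarBilin) < finrank F V := by
  classical
  let e := Module.finBasis F V
  have h1 : (LinearMap.BilinForm.toMatrix e Q.polarBilin).det = 0 := by
    apply det_alt_odd hn
    · intro i j
      simp [polar_comm]
    · intro i
      simp [CharTwo.two_eq_zero]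
  have h2 : ¬ LinearMap.BilinForm.Nondegenerate Q.polarBilin := by
    rw [LinearMap.BilinForm.nondegenerate_iff_det_ne_zero e]
    simpa using h1
  have h3 : LinearMap.ker Q.polarBilin ≠ ⊥ := by
    intro h
    apply h2
    rw [LinearMap.BilinForm.nondegenerate_iff_ker_eq_bot]
    exact h
  have h4 := Q.polarBilin.finrank_range_add_finrank_ker
  have h5 : finrank F (LinearMap.ker Q.polarBilin) ≠ 0 := by
    rwa [Ne, Submodule.finrank_eq_zero]
  omega

lemma two_num (s : ℕ) : 2 * (s + 4) ≤ 2 ^ (s + 3) := by
  induction s with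
  | zero => norm_num
  | succ s ih => rw [show s + 1 + 3 = (s + 3) + 1 from rfl, pow_succ]; omega

theorem char_two_neg [Finite F] [CharP F 2] [FiniteDimensional F V] (hQ : Q.radical = ⊥) {r : ℕ}
    (hr : HasWittIndex Q r) (h2 : 2 ≤ r) (h : HasOvoidPartition Q) :
    finrank F V = 2 * r ∧ r ≤ 3 := by
  classical
  have : Fintype F := Fintype.ofFinite F
  obtain ⟨G, hG, -⟩ := exists_gen (Q := Q) (W := ⊥) (by intro v hv; simp_all)
  have hGr := hr G hG
  have hle := TotSing.two_mul_le hQ hG.1
  obtain ⟨hh, -, hq⟩ := FiniteField.card F 2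
  by_contra hc
  obtain ⟨φ, ψ, H⟩ := polar_factor Q
  refine no_partition hQ (by omega) hG
    (perpFactor_of_pow hq φ ψ fun x y _ _ => by rw [← H, show 2 - 1 = 1 from rfl, pow_one]) ?_ h
  rw [Fintype.card_option, Fintype.card_fun, Fintype.card_fin, Nat.card_eq_fintype_card, hq,
    ← pow_mul, mul_comm, pow_mul, Fintype.card_fin, hGr]
  refine Nat.succ_le_succ (Nat.pow_le_pow_left ?_ _)
  rw [hGr] at hle
  have h3 := Q.polarBilin.finrank_range_le
  by_cases h5 : 4 ≤ finrank F V - r
  · obtain ⟨s, hs⟩ := Nat.exists_eq_add_of_le' h5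
    have h6 := two_num s
    rw [hs, show s + 4 - 1 = s + 3 from rfl]
    omega
  · have h8 : finrank F V = 5 := by omega
    have h7 := rank_polar_lt (Q := Q) (by rw [h8]; norm_num)
    have h9 : finrank F V - r - 1 = 2 := by omega
    rw [h9]
    omega

/-- hyperbolic coordinates -/
lemma exists_hyp [FiniteDimensional F V] (hQ : Q.radical = ⊥) {G : Submodule F V}
    (hG : TotSing Q G) {r : ℕ} (hr : finrank F G = r) (hn : finrank F V = 2 * r) :
    ∃ e : ((Fin r → F) × (Fin r → F)) ≃ₗ[F] V, ∀ s t, Q (e (s, t)) = s ⬝ᵥ t := by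
  classical
  let b := Module.finBasisOfFinrankEq F G hr
  let T : V →ₗ[F] (Fin r → F) := LinearMap.pi fun i => Q.polarBilin (b i)
  have hT : LinearMap.range T = ⊤ := by
    have h1 := Subspace.finrank_add_finrank_dualCoannihilator_eq
      (LinearMap.range (Q.polarBilin.comp G.subtype))
    rw [LinearMap.finrank_range_of_inj (hG.polar_inj hQ)] at h1
    have h2 : LinearMap.ker T ≤
        (LinearMap.range (Q.polarBilin.comp G.subtype)).dualCoannihilator := by
      intro v hv
      rw [Submodule.mem_dualCoannihilator]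
      rintro _ ⟨x, rfl⟩
      rw [← b.sum_repr x, map_sum, LinearMap.sum_apply]
      refine Finset.sum_eq_zero fun i _ => ?_
      have : polar Q (b i : V) v = 0 := congrFun hv i
      simp [this]
    have h3 := Submodule.finrank_mono h2
    have h4 := T.finrank_range_add_finrank_ker
    have h5 := (LinearMap.range T).finrank_le
    apply Submodule.eq_top_of_finrank_eq
    simp only [finrank_fintype_fun_eq_card, Fintype.card_fin] at h5 ⊢
    omega
  have hw : ∀ j : Fin r, ∃ w, T w = Pi.single j 1 := fun j => LinearMap.range_eq_top.1 hT _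
  choose w hw using hw
  have hbw : ∀ i j, polar Q (b i : V) (w j) = if i = j then 1 else 0 := by
    intro i j
    have := congrFun (hw j) i
    rw [Pi.single_apply] at this
    exact this
  let a : Fin r → Fin r → F := fun j i =>
    if i = j then Q (w j) else if i < j then polar Q (w j) (w i) else 0
  let g : Fin r → G := fun j => ∑ i, a j i • b i
  have hgw : ∀ j k, polar Q (g j : V) (w k) = a j k := by
    intro j k
    simp only [g, Submodule.coe_sum, Submodule.coe_smul]
    rw [← polarBilin_apply_apply, map_sum, LinearMap.sum_apply]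
    simp [hbw]
  let u : Fin r → V := fun j => w j - g j
  have hbu : ∀ i j, polar Q (b i : V) (u j) = if i = j then 1 else 0 := by
    intro i j
    rw [polar_sub_right, hbw, hG.polar (b i).2 (g j).2, sub_zero]
  have hQu : ∀ j, Q (u j) = 0 := by
    intro j
    simp only [u]
    rw [sub_eq_add_neg, q_add, QuadraticMap.map_neg, hG _ (g j).2, polar_neg_right, polar_comm,
      hgw]
    simp [a]
  have huu : ∀ j k, polar Q (u j) (u k) = 0 := by
    intro j k
    by_cases hjk : j = k
    · rw [hjk, polar_self, hQu]; simp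
    · simp only [u]
      rw [polar_sub_left, polar_sub_right, polar_sub_right, hG.polar (g j).2 (g k).2,
        polar_comm Q (w j) (g k), hgw, hgw]
      simp only [a, if_neg hjk, if_neg (Ne.symm hjk)]
      rcases lt_or_gt_of_ne hjk with h | h
      · rw [if_pos h, if_neg h.not_gt, polar_comm]; ring
      · rw [if_pos h, if_neg h.not_gt]; ring
  let U : (Fin r → F) →ₗ[F] V := Fintype.linearCombination F u
  let B : (Fin r → F) →ₗ[F] V := G.subtype.comp b.equivFun.symm.toLinearMap
  have hB : ∀ s, B s = ∑ i, s i • (b i : V) := by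
    intro s
    simp [B]
  have hU : ∀ t, U t = ∑ i, t i • u i := fun t => Fintype.linearCombination_apply _ _ _
  have hbU : ∀ i t, polar Q (b i : V) (U t) = t i := by
    intro i t
    rw [hU, ← polarBilin_apply_apply, map_sum]
    simp [hbu]
  have hBU : ∀ s t, polar Q (B s) (U t) = s ⬝ᵥ t := by
    intro s t
    rw [hB, ← polarBilin_apply_apply, map_sum, LinearMap.sum_apply]
    simp [hbU, dotProduct]
  have hQU : ∀ t, Q (U t) = 0 := by
    intro t
    have : ∀ S : Finset (Fin r), Q (∑ i ∈ S, t i • u i) = 0 := by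
      intro S
      induction S using Finset.induction_on with
      | empty => simp
      | insert j S hj ih =>
        rw [Finset.sum_insert hj, q_add, ih, QuadraticMap.map_smul, hQu,
          ← polarBilin_apply_apply, map_sum]
        simp [huu]
    rw [hU]; exact this _
  have hBG : ∀ s, B s ∈ G := fun s => (b.equivFun.symm s).2
  let E := B.coprod U
  have hinj : Function.Injective E := by
    rw [injective_iff_map_eq_zero]
    rintro ⟨s, t⟩ hst
    have h1 : B s + U t = 0 := hst
    have ht : t = 0 := by
      funext i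
      have := congrArg (polar Q (b i : V)) h1
      rw [polar_add_right, hbU, hG.polar (b i).2 (hBG s), polar_zero_right, zero_add] at this
      exact this
    rw [ht, map_zero, add_zero] at h1
    have hs : b.equivFun.symm s = 0 := Subtype.ext h1
    rw [ht, (map_eq_zero_iff _ b.equivFun.symm.injective).1 hs]
    rfl
  refine ⟨LinearMap.linearEquivOfInjective E hinj (by simp [hn, two_mul]), fun s t => ?_⟩
  show Q (B s + U t) = _
  rw [q_add, hG _ (hBG s), hQU, hBU, zero_add, zero_add]

end Pool.Agent.MP_da2386_co
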