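import Pool.Agent.MP_da2386_co.Core

open Module QuadraticMap

namespace Pool.Agent.MP_da2386_co

variable {F V : Type*} [Field F] [AddCommGroup V] [Module F V] {Q : QuadraticForm F V}

lemma TotSing.polar_inj (hQ : Q.radical = ⊥) {G : Submodule F V} (hG : TotSing Q G) :
    Function.Injective (Q.polarBilin.comp G.subtype) := by
  rw [injective_iff_map_eq_zero]
  intro x hx
  have : (x : V) ∈ Q.radical := ⟨hG x x.2, hx⟩
  rw [hQ, Submodule.mem_bot] at this
  exact Subtype.ext this

lemma TotSing.two_mul_le [FiniteDimensional F V] (hQ : Q.radical = ⊥) {G : Submodule F V}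
    (hG : TotSing Q G) : 2 * finrank F G ≤ finrank F V := by
  have h1 := Subspace.finrank_add_finrank_dualCoannihilator_eq
    (LinearMap.range (Q.polarBilin.comp G.subtype))
  rw [LinearMap.finrank_range_of_inj (hG.polar_inj hQ)] at h1
  have h2 : G ≤ (LinearMap.range (Q.polarBilin.comp G.subtype)).dualCoannihilator := by
    intro v hv
    rw [Submodule.mem_dualCoannihilator]
    rintro _ ⟨x, rfl⟩
    exact hG.polar x.2 hv
  have h3 := Submodule.finrank_mono h2
  omega

/-- the square of the polar form has rank at most `C(n+1,2) - 1` on singular vectors -/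
lemma sq_factor [FiniteDimensional F V] [NeZero (2 : F)] (hQ : Q.radical = ⊥)
    (hn : 0 < finrank F V) :
    ∃ (ι : Type) (_ : Fintype ι) (φ ψ : ι → V → F),
      Fintype.card ι = (finrank F V + 1).choose 2 - 1 ∧
      ∀ x y, Q x = 0 → Q y = 0 → polar Q x y ^ 2 = ∑ k, φ k x * ψ k y := by
  classical
  have : Invertible (2 : F) := invertibleOfNonzero (NeZero.ne 2)
  obtain ⟨e, he⟩ := LinearMap.BilinForm.exists_orthogonal_basis (B := Q.polarBilin)
    ⟨fun x y => polar_comm Q x y⟩
  let i0 : Fin (finrank F V) := ⟨0, hn⟩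
  let m : Sym2 (Fin (finrank F V)) → {x : V // Q x = 0} → F := fun k x =>
    Sym2.lift ⟨fun i j => e.repr x i * e.repr x j, fun i j => mul_comm _ _⟩ k
  let ι := {k : Sym2 (Fin (finrank F V)) // ¬ k = s(i0, i0)}
  let W := Submodule.span F (Set.range fun k : ι => m k)
  have hexp : ∀ x y : V, polar Q x y = ∑ i, e.repr x i * polar Q (e i) y := by
    intro x y
    conv_lhs => rw [← e.sum_repr x, ← polarBilin_apply_apply, map_sum, LinearMap.sum_apply]
    simp
  have hdiag : ∀ (x : V) i, polar Q (e i) x = e.repr x i * polar Q (e i) (e i) := by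
    intro x i
    rw [polar_comm, hexp, Finset.sum_eq_single i]
    · intro j _ hj
      have : polar Q (e j) (e i) = 0 := he hj
      rw [this, mul_zero]
    · simp
  have hw : polar Q (e i0) (e i0) ≠ 0 := by
    intro h
    have : e i0 ∈ Q.radical := by
      rw [radical_eq_ker_polarBilin, LinearMap.mem_ker]
      ext v
      simp only [polarBilin_apply_apply, LinearMap.zero_apply]
      rw [hdiag, h, mul_zero]
    rw [hQ, Submodule.mem_bot] at this
    exact e.ne_zero i0 this
  have hm : ∀ k, m k ∈ W := by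
    intro k
    by_cases hk : k = s(i0, i0)
    · have h1 : m k = -(polar Q (e i0) (e i0))⁻¹ •
          ∑ i ∈ Finset.univ.erase i0, polar Q (e i) (e i) • m s(i, i) := by
        funext x
        have h2 : polar Q (x : V) x = 0 := by rw [polar_self, x.2]; simp
        rw [hexp, ← Finset.add_sum_erase _ _ (Finset.mem_univ i0)] at h2
        simp only [hdiag x] at h2
        simp only [hk, m, Sym2.lift_mk, Pi.smul_apply, Finset.sum_apply, smul_eq_mul]
        have h3 : ∑ i ∈ Finset.univ.erase i0, polar Q (e i) (e i) * (e.repr x i * e.repr x i) =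
            ∑ i ∈ Finset.univ.erase i0, e.repr x i * (e.repr x i * polar Q (e i) (e i)) :=
          Finset.sum_congr rfl fun i _ => by ring
        rw [h3]
        generalize ∑ i ∈ Finset.univ.erase i0, e.repr x i * (e.repr x i * polar Q (e i) (e i)) = t
          at h2
        field_simp
        linear_combination h2
      rw [h1]
      refine W.smul_mem _ (W.sum_mem fun i hi => W.smul_mem _ ?_)
      refine Submodule.subset_span ⟨⟨s(i, i), ?_⟩, rfl⟩
      simpa using hi
    · exact Submodule.subset_span ⟨⟨k, hk⟩, rfl⟩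
  have hg : ∀ y : V, ∃ c : ι → F, ∑ k, c k • m k =
      fun x : {x : V // Q x = 0} => polar Q (x : V) y ^ 2 := by
    intro y
    rw [← Submodule.mem_span_range_iff_exists_fun]
    have : (fun x : {x : V // Q x = 0} => polar Q (x : V) y ^ 2) =
        ∑ i, ∑ j, (polar Q (e i) y * polar Q (e j) y) • m s(i, j) := by
      funext x
      simp only [m, Sym2.lift_mk, Pi.smul_apply, Finset.sum_apply, smul_eq_mul]
      rw [hexp, pow_two, Finset.sum_mul_sum]
      exact Finset.sum_congr rfl fun i _ => Finset.sum_congr rfl fun j _ => by ring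
    rw [this]
    exact W.sum_mem fun i _ => W.sum_mem fun j _ => W.smul_mem _ (hm _)
  choose c hc using hg
  refine ⟨ι, inferInstance, fun k x => if h : Q x = 0 then m k ⟨x, h⟩ else 0, fun k y => c y k,
    ?_, fun x y hx _ => ?_⟩
  · rw [Fintype.card_subtype_compl, Sym2.card, Fintype.card_fin, Fintype.card_unique]
  · have := congrFun (hc y) ⟨x, hx⟩
    simp only [Finset.sum_apply, Pi.smul_apply, smul_eq_mul] at this
    rw [← this]
    exact Finset.sum_congr rfl fun k _ => by simp only [dif_pos hx, mul_comm]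

lemma three_num (s : ℕ) : (2 * (s + 5) + 1).choose 2 - 1 ≤ 3 ^ (s + 4) := by
  have : ∀ s : ℕ, (s + 5) * (2 * s + 11) ≤ 3 ^ (s + 4) := by
    intro s
    induction s with
    | zero => norm_num
    | succ s ih => rw [show s + 1 + 4 = (s + 4) + 1 from rfl, pow_succ]; nlinarith
  have h := this s
  rw [Nat.choose_two_right]
  have h2 : (2 * (s + 5) + 1) * (2 * (s + 5) + 1 - 1) / 2 = (s + 5) * (2 * s + 11) := by
    rw [Nat.add_sub_cancel, show (2 * (s + 5) + 1) * (2 * (s + 5)) = 2 * ((s + 5) * (2 * s + 11)) by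
      ring, Nat.mul_div_cancel_left _ two_pos]
  omega

theorem char_three [Finite F] [CharP F 3] [FiniteDimensional F V] (hQ : Q.radical = ⊥) {r : ℕ}
    (hr : HasWittIndex Q r) (h2 : 2 ≤ r) (h : HasOvoidPartition Q) :
    (finrank F V = 4 ∧ r = 2) ∨ (finrank F V = 5 ∧ r = 2) ∨ (finrank F V = 6 ∧ r = 3) ∨
      (finrank F V = 8 ∧ r = 4) := by
  classical
  have : Fintype F := Fintype.ofFinite F
  have : Fact (Nat.Prime 3) := ⟨Nat.prime_three⟩
  have : NeZero (2 : F) := ⟨by
    have := (CharP.cast_eq_zero_iff F 3 2).not.2 (by norm_num)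
    simpa using this⟩
  obtain ⟨G, hG, -⟩ := exists_gen (Q := Q) (W := ⊥) (by intro v hv; simp_all)
  have hGr := hr G hG
  have hle := TotSing.two_mul_le hQ hG.1
  obtain ⟨hh, -, hq⟩ := FiniteField.card F 3
  by_contra hc
  obtain ⟨ι, _, φ, ψ, hι, H⟩ := sq_factor hQ (by omega)
  refine no_partition hQ (by omega) hG (perpFactor_of_pow hq φ ψ H) ?_ h
  rw [Fintype.card_option, Fintype.card_fun, Fintype.card_fin, Nat.card_eq_fintype_card, hq,
    ← pow_mul, mul_comm, pow_mul, hι, hGr]
  refine Nat.succ_le_succ (Nat.pow_le_pow_left ?_ _)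
  rw [hGr] at hle
  generalize finrank F V = n at *
  by_cases h5 : 5 ≤ n - r
  · obtain ⟨s, hs⟩ := Nat.exists_eq_add_of_le' h5
    have h6 := three_num s
    have h7 : (n + 1).choose 2 ≤ (2 * (s + 5) + 1).choose 2 := Nat.choose_le_choose _ (by omega)
    rw [hs, show s + 5 - 1 = s + 4 from rfl]
    omega
  · have h8 : n - r - 1 = 3 := by omega
    have h7 : (n + 1).choose 2 ≤ (8).choose 2 := Nat.choose_le_choose _ (by omega)
    rw [h8]
    have : (8).choose 2 = 28 := by norm_num [Nat.choose]
    omega

end Pool.Agent.MP_da2386_co
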